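import Pool.Agent.Helper76.TW.Goals
import Pool.Agent.Helper51.TU.TL
import Pool.Agent.Helper57.TU.BM
import Pool.Agent.Helper10.TU.BH

/-! # TW-PC: the fundamental lemma in dimension 2 (Brun-Hooley sieve with two classes) -/

set_option autoImplicit false

open Finset Filter Topology

open scoped Classical

namespace Pool.Agent.Helper96.TW

open Pool.Agent.Helper76.TW (StmtPC)
open Pool.Agent.Helper88.TU
open Pool.Agent.Helper88.PP (pr)
open Pool.Agent.Helper88.RR (gg)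
open Pool.Agent.Helper74.PP (ap_exists)
open Pool.Agent.Helper64.RR (mem_pr)
open Pool.Agent.Helper6.RR (per_bound prod_per)
open Pool.Agent.Helper51.TU (sum_pow_le)

/-- indicator of the two classes `c p`, `c' p` modulo `p` along the progression `a + M t` -/
noncomputable def s2 (c c' : ℕ → ℕ) (a M p t : ℕ) : ℝ :=
  if a + M * t ≡ c p [MOD p] ∨ a + M * t ≡ c' p [MOD p] then 1 else 0

/-- the set of the primes `p` with `h ≡ c p` or `h ≡ c' p` -/
noncomputable def S2 (W w : ℕ) (c c' : ℕ → ℕ) (h : ℕ) : Finset ℕ :=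
  (pr W w).filter (fun p => h ≡ c p [MOD p] ∨ h ≡ c' p [MOD p])

theorem S2_sub (W w : ℕ) (c c' : ℕ → ℕ) (h : ℕ) : S2 W w c c' h ⊆ pr W w := filter_subset _ _

theorem s2_sum (c c' : ℕ → ℕ) (a M p : ℕ) (hp : p.Prime) (hM : ¬ p ∣ M)
    (hc : ¬ c p ≡ c' p [MOD p]) : ∑ t ∈ range p, s2 c c' a M p t = 2 := by
  have hp0 : 0 < p := hp.pos
  have hcop : Nat.Coprime p M := (Nat.Prime.coprime_iff_not_dvd hp).2 hM
  have hinj : Set.InjOn (fun t => (a + M * t) % p) (range p : Finset ℕ) := by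
    intro s hs t ht hst
    have hs' : s < p := by simpa using hs
    have ht' : t < p := by simpa using ht
    have h1 : a + M * s ≡ a + M * t [MOD p] := hst
    have h2 : M * s ≡ M * t [MOD p] := Nat.ModEq.add_left_cancel' a h1
    have h3 : s ≡ t [MOD p] := Nat.ModEq.cancel_left_of_coprime hcop h2
    exact Nat.ModEq.eq_of_lt_of_lt h3 hs' ht'
  have himg : (range p).image (fun t => (a + M * t) % p) = range p := by
    apply Finset.eq_of_subset_of_card_le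
    · intro x hx
      obtain ⟨t, -, rfl⟩ := mem_image.1 hx
      exact mem_range.2 (Nat.mod_lt _ hp0)
    · rw [Finset.card_image_of_injOn hinj]
  have h1 : ∑ t ∈ range p, s2 c c' a M p t =
      ∑ s ∈ range p, (if s = c p % p ∨ s = c' p % p then (1 : ℝ) else 0) := by
    have e := Finset.sum_image (f := fun s => if s = c p % p ∨ s = c' p % p then (1 : ℝ) else 0)
      hinj
    rw [himg] at e
    rw [e]
    rfl
  have hne : c p % p ≠ c' p % p := hc
  rw [h1, ← Finset.sum_filter, Finset.sum_const, nsmul_eq_mul, mul_one]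
  have h2 : (range p).filter (fun s => s = c p % p ∨ s = c' p % p) = {c p % p, c' p % p} := by
    ext s
    simp only [mem_filter, mem_range, mem_insert, mem_singleton]
    constructor
    · rintro ⟨_, h⟩
      exact h
    · rintro (h | h)
      · exact ⟨by rw [h]; exact Nat.mod_lt _ hp0, Or.inl h⟩
      · exact ⟨by rw [h]; exact Nat.mod_lt _ hp0, Or.inr h⟩
  rw [h2, Finset.card_pair hne]
  norm_num

theorem prod_s2 (W w : ℕ) (c c' : ℕ → ℕ) (a M : ℕ) (A : Finset ℕ) (hA : A ⊆ pr W w) (t : ℕ) :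
    ∏ p ∈ A, s2 c c' a M p t = if A ⊆ S2 W w c c' (a + M * t) then (1 : ℝ) else 0 := by
  split_ifs with h
  · refine Finset.prod_eq_one fun p hp => ?_
    rw [s2, if_pos (mem_filter.1 (h hp)).2]
  · rw [Finset.not_subset] at h
    obtain ⟨p, hp, hn⟩ := h
    refine Finset.prod_eq_zero hp ?_
    rw [s2, if_neg]
    intro h6
    exact hn (mem_filter.2 ⟨hA hp, h6⟩)

/-- the integers of `(t, t + H]` in the class `h0` modulo `M` -/
noncomputable def F2 (t H M h0 : ℕ) : Finset ℕ :=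
  (Ioc t (t + H)).filter (fun h => h ≡ h0 [MOD M])

theorem count_two (W w t H M h0 : ℕ) (c c' : ℕ → ℕ) (hM : 0 < M)
    (hc : ∀ p ∈ pr W w, ¬ p ∣ M ∧ ¬ c p ≡ c' p [MOD p]) (A : Finset ℕ) (hA : A ⊆ pr W w) :
    |(((F2 t H M h0).filter (fun h => A ⊆ S2 W w c c' h)).card : ℝ)
      - (H : ℝ) / M * ∏ p ∈ A, (((2 : ℕ) : ℝ) / p)| ≤ 2 * ((2 : ℕ) : ℝ) ^ A.card := by
  obtain ⟨a, N, hset, hN⟩ := ap_exists t (t + H) M h0 hM (Nat.le_add_right _ _)
  have e1 : (((F2 t H M h0).filter (fun h => A ⊆ S2 W w c c' h)).card : ℝ) =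
      ∑ s ∈ range N, ∏ p ∈ A, s2 c c' a M p s := by
    rw [F2, hset, Finset.card_filter]
    push_cast
    rw [Finset.sum_image]
    · exact Finset.sum_congr rfl fun s _ => (prod_s2 W w c c' a M A hA s).symm
    · intro x _ y _ hxy
      have h2 : M * x = M * y := by
        have : a + M * x = a + M * y := hxy
        omega
      exact Nat.eq_of_mul_eq_mul_left hM h2
  have hprA : ∀ p ∈ A, p.Prime := fun p hp => (mem_pr.1 (hA hp)).2.2
  obtain ⟨g1, g2⟩ := prod_per (s2 c c' a M) A hprA (fun p _ s => by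
    rw [s2, s2]
    refine if_congr ?_ rfl rfl
    have h : ∀ e : ℕ, (a + M * (s + p) ≡ e [MOD p]) ↔ (a + M * s ≡ e [MOD p]) := fun e => by
      have h1 : a + M * (s + p) ≡ a + M * s [MOD p] := by
        rw [show a + M * (s + p) = (a + M * s) + M * p by ring]
        have : (a + M * s) + M * p ≡ (a + M * s) + 0 [MOD p] :=
          Nat.ModEq.add_left _ ((Nat.modEq_zero_iff_dvd).2 (dvd_mul_left _ _))
        rwa [add_zero] at this
      exact ⟨fun h => h1.symm.trans h, fun h => h1.trans h⟩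
    rw [h, h])
  have hm : 0 < ∏ p ∈ A, p := prod_pos fun p hp => (hprA p hp).pos
  have h3 := per_bound (f := fun s => ∏ p ∈ A, s2 c c' a M p s) hm g1
    (fun s => prod_nonneg fun p _ => by
      rw [s2]
      split_ifs <;> norm_num) N
  rw [g2] at h3
  have h4 : ∏ p ∈ A, ∑ s ∈ range p, s2 c c' a M p s = ((2 : ℕ) : ℝ) ^ A.card := by
    rw [← Finset.prod_const]
    refine Finset.prod_congr rfl fun p hp => ?_
    rw [s2_sum c c' a M p (hprA p hp) (hc p (hA hp)).1 (hc p (hA hp)).2]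
    norm_num
  have h5 : ((2 : ℕ) : ℝ) ^ A.card / ((∏ p ∈ A, p : ℕ) : ℝ) = ∏ p ∈ A, (((2 : ℕ) : ℝ) / p) := by
    rw [Nat.cast_prod, prod_div_distrib, prod_const]
  rw [h4, h5] at h3
  rw [e1]
  have hN' : |(N : ℝ) - (H : ℝ) / M| ≤ 1 := by
    rw [show t + H - t = H by omega] at hN
    exact hN
  have h7 : 0 ≤ ∏ p ∈ A, (((2 : ℕ) : ℝ) / p) := prod_nonneg fun p _ => by positivity
  have h8 : ∏ p ∈ A, (((2 : ℕ) : ℝ) / p) ≤ ((2 : ℕ) : ℝ) ^ A.card := by
    rw [← Finset.prod_const]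
    refine Finset.prod_le_prod (fun p _ => by positivity) fun p hp => ?_
    have : (1 : ℝ) ≤ p := by exact_mod_cast (hprA p hp).pos
    exact div_le_self (Nat.cast_nonneg _) this
  have h9 : |(N : ℝ) * ∏ p ∈ A, (((2 : ℕ) : ℝ) / p)
      - (H : ℝ) / M * ∏ p ∈ A, (((2 : ℕ) : ℝ) / p)| ≤ ((2 : ℕ) : ℝ) ^ A.card := by
    rw [← sub_mul, abs_mul, abs_of_nonneg h7]
    calc |(N : ℝ) - (H : ℝ) / M| * ∏ p ∈ A, (((2 : ℕ) : ℝ) / p)
        ≤ 1 * ((2 : ℕ) : ℝ) ^ A.card := mul_le_mul hN' h8 h7 (by norm_num)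
      _ = _ := one_mul _
  calc |∑ s ∈ range N, ∏ p ∈ A, s2 c c' a M p s
        - (H : ℝ) / M * ∏ p ∈ A, (((2 : ℕ) : ℝ) / p)|
      ≤ |∑ s ∈ range N, ∏ p ∈ A, s2 c c' a M p s - N * ∏ p ∈ A, (((2 : ℕ) : ℝ) / p)|
        + |(N : ℝ) * ∏ p ∈ A, (((2 : ℕ) : ℝ) / p)
      - (H : ℝ) / M * ∏ p ∈ A, (((2 : ℕ) : ℝ) / p)| := abs_sub_le _ _ _
    _ ≤ ((2 : ℕ) : ℝ) ^ A.card + ((2 : ℕ) : ℝ) ^ A.card := add_le_add h3 h9
    _ = _ := by ring

theorem sum_two (F : Finset ℕ) (T : ℕ → Finset ℕ) (M : ℝ) (Ac : Finset (Finset ℕ))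
    (hAc : ∀ A ∈ Ac, |((F.filter (fun n => A ⊆ T n)).card : ℝ)
      - M * ∏ p ∈ A, (((2 : ℕ) : ℝ) / p)| ≤ 2 * ((2 : ℕ) : ℝ) ^ A.card) :
    |∑ n ∈ F, ∑ A ∈ Ac.filter (fun A => A ⊆ T n), (-1 : ℝ) ^ A.card
      - M * ∑ A ∈ Ac, (-1 : ℝ) ^ A.card * ∏ p ∈ A, (((2 : ℕ) : ℝ) / p)|
      ≤ 2 * ∑ A ∈ Ac, ((2 : ℕ) : ℝ) ^ A.card := by
  have h1 : ∑ n ∈ F, ∑ A ∈ Ac.filter (fun A => A ⊆ T n), (-1 : ℝ) ^ A.card =
      ∑ A ∈ Ac, (-1 : ℝ) ^ A.card * ((F.filter (fun n => A ⊆ T n)).card : ℝ) := by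
    simp only [sum_filter]
    rw [sum_comm]
    refine sum_congr rfl fun A _ => ?_
    rw [← sum_filter, sum_const, nsmul_eq_mul, mul_comm]
  rw [h1, mul_sum, ← sum_sub_distrib, mul_sum]
  refine (abs_sum_le_sum_abs _ _).trans (sum_le_sum fun A hA => ?_)
  have h2 : (-1 : ℝ) ^ A.card * ((F.filter (fun n => A ⊆ T n)).card : ℝ)
      - M * ((-1 : ℝ) ^ A.card * ∏ p ∈ A, (((2 : ℕ) : ℝ) / p)) =
      (-1 : ℝ) ^ A.card * (((F.filter (fun n => A ⊆ T n)).card : ℝ)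
      - M * ∏ p ∈ A, (((2 : ℕ) : ℝ) / p)) := by ring
  rw [h2, abs_mul, abs_pow, abs_neg, abs_one, one_pow, one_mul]
  exact hAc A hA

/-- `gg W w 2 ≥ 1 / w ^ 2` for `W ≥ 4` -/
theorem gg_two_ge (W w : ℕ) (hW : 4 ≤ W) (hw : W ≤ w) : 1 / (w : ℝ) ^ 2 ≤ gg W w 2 := by
  have h1 : ∏ n ∈ Ioc W w, (1 - ((2 : ℕ) : ℝ) / n) ≤ gg W w 2 := by
    rw [gg, pr, Finset.prod_filter]
    refine Finset.prod_le_prod (fun n hn => ?_) fun n hn => ?_
    · have h := (mem_Ioc.1 hn).1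
      have h' : (4 : ℝ) ≤ n := by exact_mod_cast (by omega : 4 ≤ n)
      rw [sub_nonneg, div_le_one (by linarith)]
      push_cast
      linarith
    · split_ifs
      · exact le_rfl
      · have : (0 : ℝ) ≤ ((2 : ℕ) : ℝ) / n := by positivity
        linarith
  refine le_trans ?_ h1
  have h2 : ∀ m : ℕ, W ≤ m → ∏ n ∈ Ioc W m, (1 - ((2 : ℕ) : ℝ) / n) =
      (W : ℝ) * (W - 1) / (m * (m - 1)) := by
    intro m hm
    induction m, hm using Nat.le_induction with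
    | base =>
      have hW' : (4 : ℝ) ≤ W := by exact_mod_cast hW
      rw [Finset.Ioc_self, Finset.prod_empty]
      have h3 : (W : ℝ) ≠ 0 := by linarith
      have h4 : (W : ℝ) - 1 ≠ 0 := by linarith
      field_simp
    | succ m hm ih =>
      have hm' : (4 : ℝ) ≤ m := by exact_mod_cast hW.trans hm
      rw [← Finset.insert_Ioc_right_eq_Ioc_add_one hm, Finset.prod_insert (by simp), ih]
      push_cast
      have h3 : (m : ℝ) ≠ 0 := by linarith
      have h4 : (m : ℝ) - 1 ≠ 0 := by linarith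
      have h5 : (m : ℝ) + 1 ≠ 0 := by linarith
      have h6 : (m : ℝ) + 1 - 1 ≠ 0 := by
        simpa using h3
      field_simp
      ring
  rw [h2 w hw]
  have hW' : (4 : ℝ) ≤ W := by exact_mod_cast hW
  have hw' : (4 : ℝ) ≤ w := by exact_mod_cast hW.trans hw
  rw [div_le_div_iff₀ (by positivity) (by nlinarith)]
  nlinarith [mul_nonneg (by linarith : (0 : ℝ) ≤ W - 4) (by linarith : (0 : ℝ) ≤ (W : ℝ) - 1),
    sq_nonneg (w : ℝ)]

theorem pc : StmtPC := by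
  obtain ⟨E0, hBM⟩ := Pool.Agent.Helper57.TU.bm
  set E := max E0 4 with hEdef
  have hE0 : E0 ≤ E := le_max_left _ _
  have hE4 : 4 ≤ E := le_max_right _ _
  refine ⟨E ^ 2, max (E ^ 2) (⌈Real.exp E⌉₊ + 64), 2 * (E / 32) + 4, by nlinarith, le_max_left _ _,
    fun w H M t h0 c c' hw hM hc hH => ?_⟩
  have hWw : E ^ 2 ≤ w := (le_max_left _ _).trans hw
  have hw2 : ⌈Real.exp E⌉₊ + 64 ≤ w := (le_max_right _ _).trans hw
  have hexp : Real.exp E ≤ w := (Nat.le_ceil _).trans (by exact_mod_cast (by omega :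
    ⌈Real.exp E⌉₊ ≤ w))
  have hw64 : 64 ≤ w := by omega
  have hW16 : 16 ≤ E ^ 2 := by nlinarith
  obtain ⟨c1, c2, c3, c4, c5⟩ := hBM E (E ^ 2) w 2 hE0 hexp le_rfl hWw (by omega)
  set W := E ^ 2 with hWdef
  set g := gg W w 2 with hg
  set X : ℝ := (H : ℝ) / M with hX
  have hMpos : (0 : ℝ) < M := by exact_mod_cast hM
  have hX0 : 0 ≤ X := by positivity
  set F := F2 t H M h0 with hF
  have hcount : ∀ A : Finset ℕ, A ⊆ pr W w →
      |((F.filter (fun n => A ⊆ S2 W w c c' n)).card : ℝ)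
        - X * ∏ p ∈ A, (((2 : ℕ) : ℝ) / p)| ≤ 2 * ((2 : ℕ) : ℝ) ^ A.card :=
    fun A hA => count_two W w t H M h0 c c' hM hc A hA
  have hAA : ∀ A ∈ AA E W w, A ⊆ pr W w := fun A hA => mem_powerset.1 (mem_filter.1 hA).1
  have hAX : ∀ t, ∀ A ∈ AX E W w t, A ⊆ pr W w :=
    fun t A hA => mem_powerset.1 (mem_filter.1 hA).1
  have hBHn := fun n => Pool.Agent.Helper10.TU.bh E W w (S2 W w c c' n) (by omega)
    (S2_sub W w c c' n)
  set SU := ∑ n ∈ F, ∏ t ∈ range w, Ut E W w t (S2 W w c c' n) with hSU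
  set SE := ∑ n ∈ F, EF E W w (S2 W w c c' n) with hSE
  have hcnt : (((Ioc t (t + H)).filter (fun h => h ≡ h0 [MOD M] ∧
      ∀ p ∈ pr W w, ¬ h ≡ c p [MOD p] ∧ ¬ h ≡ c' p [MOD p])).card : ℝ) =
      ∑ n ∈ F, (if S2 W w c c' n = ∅ then (1 : ℝ) else 0) := by
    rw [← Finset.sum_filter, Finset.sum_const, nsmul_eq_mul, mul_one, hF, F2,
      Finset.filter_filter]
    congr 2
    refine Finset.filter_congr fun n _ => ?_
    rw [S2, filter_eq_empty_iff]
    refine and_congr_right fun _ => ?_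
    constructor
    · intro h p hp hcon
      rcases hcon with h1 | h1
      · exact (h p hp).1 h1
      · exact (h p hp).2 h1
    · intro h p hp
      exact ⟨fun h1 => h hp (Or.inl h1), fun h1 => h hp (Or.inr h1)⟩
  rw [hcnt]
  set cnt := ∑ n ∈ F, (if S2 W w c c' n = ∅ then (1 : ℝ) else 0) with hcntdef
  have i1 : cnt ≤ SU := Finset.sum_le_sum fun n _ => (hBHn n).2.1
  have i2 : SU ≤ cnt + SE := by
    rw [hSU, hSE, hcntdef, ← Finset.sum_add_distrib]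
    exact Finset.sum_le_sum fun n _ => (hBHn n).2.2.1
  have hWk : 2 ≤ W := by omega
  set Z := ((w ^ (E / 32) : ℕ) : ℝ) with hZ
  have i3 : |SU - X * g| ≤ Real.exp (-(E : ℝ)) * (X * g) + 2 * Z ^ 2 := by
    have e1 : SU = ∑ n ∈ F, ∑ A ∈ (AA E W w).filter (fun A => A ⊆ S2 W w c c' n),
        (-1 : ℝ) ^ A.card := Finset.sum_congr rfl fun n _ => (hBHn n).2.2.2.1
    have e2 := sum_two F (S2 W w c c') X (AA E W w) (fun A hA => hcount A (hAA A hA))
    have e3 := sum_pow_le W w 2 (w ^ (E / 32)) hWk (AA E W w) hAA c4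
    rw [← e1] at e2
    have e4 : |X * ∑ A ∈ AA E W w, (-1 : ℝ) ^ A.card * ∏ p ∈ A, (((2 : ℕ) : ℝ) / p)
        - X * g| ≤ Real.exp (-(E : ℝ)) * (X * g) := by
      rw [← mul_sub, abs_mul, abs_of_nonneg hX0]
      have := mul_le_mul_of_nonneg_left c2 hX0
      linarith
    have e5 := abs_sub_le SU
      (X * ∑ A ∈ AA E W w, (-1 : ℝ) ^ A.card * ∏ p ∈ A, (((2 : ℕ) : ℝ) / p)) (X * g)
    linarith
  have i4 : SE ≤ Real.exp (-(E : ℝ)) * (X * g) + 2 * (w * Z ^ 2) := by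
    have e1 : SE = -∑ t ∈ range w, ∑ n ∈ F,
        ∑ A ∈ (AX E W w t).filter (fun A => A ⊆ S2 W w c c' n), (-1 : ℝ) ^ A.card := by
      rw [Finset.sum_comm, ← Finset.sum_neg_distrib]
      exact Finset.sum_congr rfl fun n _ => (hBHn n).2.2.2.2
    have e2 : ∀ t ∈ range w, -(2 * Z ^ 2) ≤
        ∑ n ∈ F, ∑ A ∈ (AX E W w t).filter (fun A => A ⊆ S2 W w c c' n), (-1 : ℝ) ^ A.card
        - X * ∑ A ∈ AX E W w t, (-1 : ℝ) ^ A.card * ∏ p ∈ A, (((2 : ℕ) : ℝ) / p) := by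
      intro t ht
      have f1 := sum_two F (S2 W w c c') X (AX E W w t) (fun A hA => hcount A (hAX t A hA))
      have f2 := sum_pow_le W w 2 (w ^ (E / 32)) hWk (AX E W w t) (hAX t)
        (c5 t (mem_range.1 ht))
      have f3 := (abs_le.1 f1).1
      linarith
    have e3 := Finset.sum_le_sum e2
    rw [Finset.sum_sub_distrib, Finset.sum_const, card_range, nsmul_eq_mul, ← Finset.mul_sum]
      at e3
    have e4 := mul_le_mul_of_nonneg_left c3 hX0
    linarith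
  -- the sizes
  have hw' : (64 : ℝ) ≤ w := by exact_mod_cast hw64
  have hw0 : (0 : ℝ) < w := by linarith
  have hgw : 1 / (w : ℝ) ^ 2 ≤ g := gg_two_ge W w (by omega) hWw
  have hXw : (w : ℝ) ^ (2 * (E / 32) + 4) ≤ X := by
    rw [hX, le_div_iff₀ hMpos, mul_comm]
    exact_mod_cast hH
  have hZw : Z ^ 2 * (w : ℝ) ^ 4 = (w : ℝ) ^ (2 * (E / 32) + 4) := by
    rw [hZ]
    push_cast
    rw [← pow_mul, ← pow_add]
    ring_nf
  have hXg : Z ^ 2 * (w : ℝ) ^ 2 ≤ X * g := by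
    have h1 : (w : ℝ) ^ (2 * (E / 32) + 4) * (1 / (w : ℝ) ^ 2) ≤ X * g :=
      mul_le_mul hXw hgw (by positivity) hX0
    have h2 : Z ^ 2 * (w : ℝ) ^ 2 = (w : ℝ) ^ (2 * (E / 32) + 4) * (1 / (w : ℝ) ^ 2) := by
      rw [← hZw]
      field_simp
    linarith
  have hZ0 : 0 ≤ Z ^ 2 := sq_nonneg _
  have hXg0 : 0 ≤ X * g := mul_nonneg hX0 c1.le
  have he : Real.exp (-(E : ℝ)) ≤ 1 / 16 := by
    have h1 : (16 : ℝ) ≤ Real.exp 4 := by
      have h2 : Real.exp 4 = Real.exp 1 ^ 4 := by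
        rw [← Real.exp_nat_mul]
        norm_num
      rw [h2]
      have h3 := Real.exp_one_gt_d9
      calc (16 : ℝ) = 2 ^ 4 := by norm_num
        _ ≤ Real.exp 1 ^ 4 := pow_le_pow_left₀ (by norm_num) (by linarith) 4
    have h4 : Real.exp 4 ≤ Real.exp E := Real.exp_le_exp.2 (by exact_mod_cast hE4)
    rw [Real.exp_neg, ← one_div]
    exact one_div_le_one_div_of_le (by norm_num) (h1.trans h4)
  have he0 := mul_le_mul_of_nonneg_right he hXg0
  have hsmall : 2 * Z ^ 2 + 2 * (w * Z ^ 2) ≤ 1 / 16 * (X * g) := by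
    have h1 : 64 * (w * Z ^ 2) ≤ Z ^ 2 * (w : ℝ) ^ 2 := by
      have : 0 ≤ (w * Z ^ 2) * ((w : ℝ) - 64) :=
        mul_nonneg (mul_nonneg hw0.le hZ0) (by linarith)
      nlinarith
    have h2 : 64 * Z ^ 2 ≤ w * Z ^ 2 := mul_le_mul_of_nonneg_right hw' hZ0
    linarith
  have hwZ0 : 0 ≤ w * Z ^ 2 := mul_nonneg hw0.le hZ0
  have i3' := abs_le.1 i3
  constructor
  · linarith [i3'.1, i3'.2]
  · linarith [i3'.1, i3'.2]

end Pool.Agent.Helper96.TW
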