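import Pool.Agent.Helper83.TW.Goals1

/-! Packet TW-GTT -/

set_option autoImplicit false

namespace Pool.Agent.Helper96.TW

open Complex Set Pool.Agent.Helper83.TW

theorem Hol_add {f g : ℂ × ℂ → ℂ} {U : Set (ℂ × ℂ)} (hf : Hol f U) (hg : Hol g U) :
    Hol (fun p => f p + g p) U :=
  ⟨hf.diff.add hg.diff, fun p hp => by rw [hf.per p hp, hg.per p hp],
    fun p hp => by
      rw [hf.sym p hp, hg.sym p hp]; exact (map_add (starRingEnd ℂ) _ _).symm⟩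

theorem Hol_sub {f g : ℂ × ℂ → ℂ} {U : Set (ℂ × ℂ)} (hf : Hol f U) (hg : Hol g U) :
    Hol (fun p => f p - g p) U :=
  ⟨hf.diff.sub hg.diff, fun p hp => by rw [hf.per p hp, hg.per p hp],
    fun p hp => by
      rw [hf.sym p hp, hg.sym p hp]; exact (map_sub (starRingEnd ℂ) _ _).symm⟩

theorem Hol_mul {f g : ℂ × ℂ → ℂ} {U : Set (ℂ × ℂ)} (hf : Hol f U) (hg : Hol g U) :
    Hol (fun p => f p * g p) U :=
  ⟨hf.diff.mul hg.diff, fun p hp => by rw [hf.per p hp, hg.per p hp],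
    fun p hp => by
      rw [hf.sym p hp, hg.sym p hp]; exact (map_mul (starRingEnd ℂ) _ _).symm⟩

theorem Hol_div {f g : ℂ × ℂ → ℂ} {U : Set (ℂ × ℂ)} (hf : Hol f U) (hg : Hol g U)
    (h0 : ∀ p ∈ U, g p ≠ 0) : Hol (fun p => f p / g p) U :=
  ⟨by
      simp_rw [div_eq_mul_inv]
      exact hf.diff.mul (hg.diff.inv h0), fun p hp => by rw [hf.per p hp, hg.per p hp],
    fun p hp => by
      rw [hf.sym p hp, hg.sym p hp]; exact (map_div₀ (starRingEnd ℂ) _ _).symm⟩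

theorem Hol_one (U : Set (ℂ × ℂ)) : Hol (fun _ => (1 : ℂ)) U :=
  ⟨differentiableOn_const _, fun _ _ => rfl, fun _ _ => (map_one (starRingEnd ℂ)).symm⟩

theorem Hol_snd {f : ℂ → ℂ} {s : ℝ} (hf : Hol1 f (Om s)) (r : ℝ) :
    Hol (fun p => f p.2) (Dom r s) :=
  ⟨hf.diff.comp differentiable_snd.differentiableOn (fun p hp => hp.2), fun _ _ => rfl,
    fun p hp => hf.sym p.2 hp.2⟩

theorem gTT (hHD : GHolD) (hC : GCau) : GTT := by
  intro ρ r s δ Λ η M hP S c hS hc κ E0 hcor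
  obtain ⟨-, c2, c3, c4, -⟩ := hC
  have hs0 := hP.hs0
  have hδ0 := hP.hδ0
  have hη0 := hP.hη0
  have hΛ0 : 0 < Λ := by linarith [hP.hΛ]
  have hΛ1 : 1 ≤ Λ := by linarith [hP.hΛ]
  have hΛ4 := hP.hΛ
  have hc1 : c ≤ 1 / 256 := by linarith [hP.hρ1]
  have hc0 := hS.c0
  have hinvs : 1 / s ≤ Λ := by
    rw [div_le_iff₀ hs0]; exact hP.hΛs
  have hinvδ : 1 / δ ≤ Λ := by
    rw [div_le_iff₀ hδ0]; exact hP.M_le
  have hΛη : 0 < Λ * η := by positivity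
  -- bounds for the derivatives of E0
  have b1 : ∀ w ∈ Om (3 * s / 4), ‖deriv E0 w‖ ≤ 4 * Λ * η := by
    intro w hw
    have h := c4 E0 η s (s / 4) (by linarith) hcor.hE.diff hcor.bE w
      (by rwa [show s - s / 4 = 3 * s / 4 by ring])
    refine h.trans ?_
    rw [show η / (s / 4) = 4 * (1 / s) * η by field_simp]
    gcongr
  have hE1 : Hol1 (deriv E0) (Om s) := hHD.2 _ _ hcor.hE
  have hE2 : Hol1 (deriv (deriv E0)) (Om s) := hHD.2 _ _ hE1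
  have b2 : ∀ w ∈ Om (s / 2), ‖deriv (deriv E0) w‖ ≤ 16 * Λ ^ 2 * η := by
    intro w hw
    have h := c4 (deriv E0) (4 * Λ * η) (3 * s / 4) (s / 4) (by linarith)
      (hE1.diff.mono (Om_mono (by linarith))) b1 w
      (by rwa [show 3 * s / 4 - s / 4 = s / 2 by ring])
    refine h.trans ?_
    rw [show 4 * Λ * η / (s / 4) = 16 * Λ * η * (1 / s) by field_simp; ring]
    calc 16 * Λ * η * (1 / s) ≤ 16 * Λ * η * Λ := by gcongr
      _ = 16 * Λ ^ 2 * η := by ring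
  have bb1 : ∀ w ∈ Om (s / 2), ‖deriv E0 w‖ ≤ Λ ^ 2 * η := by
    intro w hw
    refine (b1 w (Om_mono (by linarith) hw)).trans ?_
    nlinarith
  have bb2 : ∀ w ∈ Om (s / 2), ‖deriv (deriv E0) w‖ ≤ Λ ^ 3 * η := by
    intro w hw
    refine (b2 w hw).trans ?_
    have : 0 < Λ ^ 2 * η := by positivity
    nlinarith
  have b3 : ∀ p ∈ Dom (r - 6 * δ) (s / 2), ‖D1 κ p‖ ≤ Λ ^ 4 * η := by
    intro p hp
    have h := c2 κ (Λ ^ 3 * η) (r - 5 * δ) (s / 2) δ hδ0 hcor.hκ.diff hcor.bκ p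
      (by rwa [show r - 5 * δ - δ = r - 6 * δ by ring])
    refine h.trans ?_
    rw [show Λ ^ 3 * η / δ = Λ ^ 3 * η * (1 / δ) by field_simp]
    calc Λ ^ 3 * η * (1 / δ) ≤ Λ ^ 3 * η * Λ := by gcongr
      _ = Λ ^ 4 * η := by ring
  have b4 : ∀ p ∈ Dom (r - 6 * δ) (3 * s / 8), ‖D2 κ p‖ ≤ 8 * (Λ ^ 4 * η) := by
    intro p hp
    have h := c3 κ (Λ ^ 3 * η) (r - 5 * δ) (s / 2) (s / 8) (by linarith) hcor.hκ.diff hcor.bκ p
      (Dom_mono (by linarith) (by linarith) hp)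
    refine h.trans ?_
    rw [show Λ ^ 3 * η / (s / 8) = 8 * (Λ ^ 3 * η * (1 / s)) by field_simp]
    calc 8 * (Λ ^ 3 * η * (1 / s)) ≤ 8 * (Λ ^ 3 * η * Λ) := by gcongr
      _ = 8 * (Λ ^ 4 * η) := by ring
  -- smallness
  have hsm : Λ ^ 3 * η ≤ 1 / 1024 := by
    have h1 : Λ ^ 40 * η ≤ 1 := hP.hη
    have h2 : Λ ^ 4 * η ≤ 1 := by
      refine le_trans ?_ h1
      gcongr
      norm_num
    have h3 : Λ ^ 3 * η * Λ ≤ 1 := by
      calc Λ ^ 3 * η * Λ = Λ ^ 4 * η := by ring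
        _ ≤ 1 := h2
    have h4 : 0 < Λ ^ 3 * η := by positivity
    nlinarith
  have hsub : Dom (r - 6 * δ) (3 * s / 8) ⊆ Dom r s := Dom_mono (by linarith) (by linarith)
  have hsub2 : Dom (r - 6 * δ) (3 * s / 8) ⊆ Dom (r - 6 * δ) (s / 2) :=
    Dom_mono le_rfl (by linarith)
  have hsub3 : Dom (r - 6 * δ) (3 * s / 8) ⊆ Dom (r - 5 * δ) (s / 2) :=
    Dom_mono (by linarith) (by linarith)
  -- denominators
  have hd1 : ∀ p ∈ Dom r s, 255 / 256 ≤ ‖1 + D1 S.u p‖ := by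
    intro p hp
    have h1 := hS.bu1 p hp
    have h2 : ‖(1 : ℂ)‖ ≤ ‖1 + D1 S.u p‖ + ‖D1 S.u p‖ := by
      calc ‖(1 : ℂ)‖ = ‖(1 + D1 S.u p) - D1 S.u p‖ := by ring_nf
        _ ≤ _ := norm_sub_le _ _
    rw [norm_one] at h2
    linarith
  have hd2 : ∀ p ∈ Dom (r - 6 * δ) (3 * s / 8),
      99 / 100 ≤ ‖deriv S.a p.2 + deriv (deriv E0) p.2‖ := by
    intro p hp
    have h1 := hS.ba1 p.2 (hsub hp).2
    have h2 := bb2 p.2 (hsub2 hp).2
    have h3 : ‖(1 : ℂ)‖ ≤ ‖deriv S.a p.2 + deriv (deriv E0) p.2‖ + ‖deriv S.a p.2 - 1‖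
        + ‖deriv (deriv E0) p.2‖ := by
      calc ‖(1 : ℂ)‖ = ‖(deriv S.a p.2 + deriv (deriv E0) p.2) - (deriv S.a p.2 - 1)
            - deriv (deriv E0) p.2‖ := by ring_nf
        _ ≤ ‖(deriv S.a p.2 + deriv (deriv E0) p.2) - (deriv S.a p.2 - 1)‖
            + ‖deriv (deriv E0) p.2‖ := norm_sub_le _ _
        _ ≤ _ := by gcongr; exact norm_sub_le _ _
    rw [norm_one] at h3
    linarith
  have hn1 : ∀ p ∈ Dom r s, 1 + D1 S.u p ≠ 0 := by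
    intro p hp h0
    have := hd1 p hp
    rw [h0, norm_zero] at this
    norm_num at this
  have hn2 : ∀ p ∈ Dom (r - 6 * δ) (3 * s / 8), deriv S.a p.2 + deriv (deriv E0) p.2 ≠ 0 := by
    intro p hp h0
    have := hd2 p hp
    rw [h0, norm_zero] at this
    norm_num at this
  refine ⟨?_, ?_, fun w hw => ⟨bb1 w hw, bb2 w hw⟩, b3⟩
  · -- holomorphy
    have hu := hHD.1 S.u (Dom r s) (isOpen_Dom r s) (fun p hp => Dom_shift hp)
      (fun p hp => Dom_cj hp) hS.hu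
    have hκ := hHD.1 κ (Dom (r - 5 * δ) (s / 2)) (isOpen_Dom _ _) (fun p hp => Dom_shift hp)
      (fun p hp => Dom_cj hp) hcor.hκ
    have ha : Hol1 (deriv S.a) (Om s) := hHD.2 _ _ hS.ha
    have h1 : Hol (fun p => D2 S.u p / (1 + D1 S.u p)) (Dom (r - 6 * δ) (3 * s / 8)) :=
      (Hol_div hu.2 (Hol_add (Hol_one _) hu.1) hn1).mono hsub
    have h2 : Hol (fun p : ℂ × ℂ => D1 κ p + deriv E0 p.2) (Dom (r - 6 * δ) (3 * s / 8)) :=
      Hol_add (hκ.1.mono hsub3) ((Hol_snd hE1 r).mono hsub)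
    have h3 : Hol (fun p : ℂ × ℂ => deriv S.a p.2 + deriv (deriv E0) p.2)
        (Dom (r - 6 * δ) (3 * s / 8)) :=
      Hol_add ((Hol_snd ha r).mono hsub) ((Hol_snd hE2 r).mono hsub)
    exact Hol_div (Hol_sub (hκ.2.mono hsub3) (Hol_mul h1 h2)) h3 hn2
  · intro p hp
    have e1 := b4 p hp
    have e2 := hS.bu2 p (hsub hp)
    have e3 := hd1 p (hsub hp)
    have e4 := b3 p (hsub2 hp)
    have e5 := bb1 p.2 (hsub2 hp).2
    have e6 := hd2 p hp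
    have hΛ4η : 0 < Λ ^ 4 * η := by positivity
    have f1 : ‖D2 S.u p / (1 + D1 S.u p)‖ ≤ 1 / 200 := by
      rw [norm_div, div_le_iff₀ (by linarith)]
      nlinarith
    have f2 : ‖D1 κ p + deriv E0 p.2‖ ≤ 2 * (Λ ^ 4 * η) := by
      refine (norm_add_le _ _).trans ?_
      have : Λ ^ 2 * η ≤ Λ ^ 4 * η := by
        gcongr
        norm_num
      linarith
    have f3 : ‖D2 κ p - D2 S.u p / (1 + D1 S.u p) * (D1 κ p + deriv E0 p.2)‖
        ≤ 9 * (Λ ^ 4 * η) := by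
      refine (norm_sub_le _ _).trans ?_
      rw [norm_mul]
      have : ‖D2 S.u p / (1 + D1 S.u p)‖ * ‖D1 κ p + deriv E0 p.2‖
          ≤ 1 / 200 * (2 * (Λ ^ 4 * η)) := by
        gcongr
      linarith
    rw [tt, norm_div, div_le_iff₀ (by linarith)]
    have f4 : 10 * (Λ ^ 4 * η) ≤ Λ ^ 5 * η := by
      calc 10 * (Λ ^ 4 * η) ≤ Λ * (Λ ^ 4 * η) := by gcongr; linarith
        _ = Λ ^ 5 * η := by ring
    have f5 : 0 ≤ Λ ^ 5 * η := by positivity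
    nlinarith

end Pool.Agent.Helper96.TW
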